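import Pool.Agent.T9h36.SK.Spec

/-!
# Piece (A): monotone circuits as monotone real circuits with gates of fan-in at most two
-/

set_option autoImplicit false

namespace Pool.Agent.T9h81.SK

open Pool.Agent.T9h34 (Circuit Src Gate runGates runGates_append length_runGates getD_append_lt
  getD_append_eq)
open Pool.Agent.T9h20 (FCircuit FGate FWire)
open Pool.Agent.T9h36.SK

variable {Λ : Type}

lemma getD_take (x : Λ → Bool) (gs : List (Gate Λ)) {j k : ℕ} (hk : k < j)
    (hj : j ≤ gs.length) :
    (runGates x (gs.take j)).getD k false = (runGates x gs).getD k false := by
  induction gs using List.reverseRecOn with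
  | nil => simp
  | append_singleton gs g ih =>
    by_cases h : j ≤ gs.length
    · rw [List.take_append_of_le_length h, ih h, runGates_append,
        getD_append_lt (by rw [length_runGates]; omega)]
    · have : (gs ++ [g]).take j = gs ++ [g] := by
        apply List.take_of_length_le
        simp only [List.length_append, List.length_singleton]
        omega
      rw [this]

lemma getD_eval (x : Λ → Bool) (gs : List (Gate Λ)) {j : ℕ} (hj : j < gs.length) :
    (runGates x gs).getD j false = (gs[j]).eval x (runGates x (gs.take j)) := by
  induction gs using List.reverseRecOn with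
  | nil => simp at hj
  | append_singleton gs g ih =>
    by_cases h : j < gs.length
    · rw [List.take_append_of_le_length h.le, runGates_append,
        getD_append_lt (by rw [length_runGates]; exact h), ih h, List.getElem_append_left h]
    · have hj' : j = gs.length := by
        simp only [List.length_append, List.length_singleton] at hj
        omega
      subst hj'
      rw [runGates_append, getD_append_eq (length_runGates x gs).symm]
      simp

/-- the wire -/
def wireOf : Src Λ → FWire Λ
  | .input i => .input i
  | .const _ => .gate 0
  | .gate j => .gate j

/-- the value of the operand -/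
noncomputable def valOf : Src Λ → ℝ → ℝ
  | .input _, t => t
  | .const b, _ => if b = true then 1 else 0
  | .gate _, t => t

lemma valOf_mono (a : Src Λ) {t t' : ℝ} (h : t ≤ t') : valOf a t ≤ valOf a t' := by
  cases a with
  | input i => exact h
  | const b => exact le_rfl
  | gate j => exact h

/-- the gate -/
noncomputable def gateOf : Gate Λ → FGate Λ
  | .and a b => ⟨2, ![wireOf a, wireOf b], fun u => min (valOf a (u 0)) (valOf b (u 1)),
      fun _ _ h => min_le_min (valOf_mono a (h 0)) (valOf_mono b (h 1))⟩
  | .or a b => ⟨2, ![wireOf a, wireOf b], fun u => max (valOf a (u 0)) (valOf b (u 1)),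
      fun _ _ h => max_le_max (valOf_mono a (h 0)) (valOf_mono b (h 1))⟩
  | .other _ _ => ⟨0, Fin.elim0, fun _ => 0, fun _ _ _ => le_rfl⟩

/-- the output gate -/
noncomputable def outGate (a : Src Λ) : FGate Λ :=
  ⟨1, fun _ => wireOf a, fun u => valOf a (u 0), fun _ _ h => valOf_mono a (h 0)⟩

open Classical in
/-- the circuit -/
noncomputable def conv (D : Circuit Λ) : FCircuit Λ where
  size := D.gates.length + 1
  gate := fun j => if h : j < D.gates.length then gateOf (D.gates[j]) else outGate D.out
  out := .gate D.gates.length

lemma src_val (x : Λ → Bool) (vals : List Bool) (v : ℕ → ℝ)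
    (hv : ∀ i, v i = if vals.getD i false = true then 1 else 0) (a : Src Λ) :
    valOf a ((wireOf a).eval (fun a => if x a = true then (1 : ℝ) else 0) v) =
      if a.eval x vals = true then 1 else 0 := by
  cases a with
  | input i => rfl
  | const b => rfl
  | gate j => exact hv j

lemma gate_val (x : Λ → Bool) (vals : List Bool) (v : ℕ → ℝ)
    (hv : ∀ i, v i = if vals.getD i false = true then 1 else 0) (g : Gate Λ) (hg : g.IsMono) :
    (gateOf g).op (fun l => ((gateOf g).wire l).eval (fun a => if x a = true then (1 : ℝ) else 0) v)
      = if g.eval x vals = true then 1 else 0 := by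
  cases g with
  | and a b =>
    change min (valOf a ((wireOf a).eval _ v)) (valOf b ((wireOf b).eval _ v)) = _
    rw [src_val x vals v hv, src_val x vals v hv]
    simp only [Gate.eval]
    by_cases h1 : a.eval x vals = true <;> by_cases h2 : b.eval x vals = true <;> simp [h1, h2]
  | or a b =>
    change max (valOf a ((wireOf a).eval _ v)) (valOf b ((wireOf b).eval _ v)) = _
    rw [src_val x vals v hv, src_val x vals v hv]
    simp only [Gate.eval]
    by_cases h1 : a.eval x vals = true <;> by_cases h2 : b.eval x vals = true <;> simp [h1, h2]
  | other args φ => simp [Pool.Agent.T9h34.Gate.IsMono, Pool.Agent.T9h34.Gate.isOther] at hg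

lemma conv_val (D : Circuit Λ) (hD : ∀ g ∈ D.gates, g.IsMono) (x : Λ → Bool) :
    ∀ j, j < D.gates.length → (conv D).val (fun a => if x a = true then (1 : ℝ) else 0) j =
      if (runGates x D.gates).getD j false = true then 1 else 0 := by
  intro j
  induction j using Nat.strong_induction_on with
  | _ j ih =>
    intro hj
    rw [FCircuit.val]
    have hg : (conv D).gate j = gateOf (D.gates[j]) := by
      simp only [conv, hj, dif_pos]
    rw [hg, getD_eval x D.gates hj]
    apply gate_val x (runGates x (D.gates.take j))
    · intro i
      by_cases hi : i < j
      · rw [dif_pos hi, ih i hi (hi.trans hj), getD_take x D.gates hi hj.le]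
      · rw [dif_neg hi, List.getD_eq_default]
        · simp
        · rw [length_runGates, List.length_take]
          omega
    · exact hD _ (List.getElem_mem hj)

theorem sConv : S_Conv := by
  intro Λ D hD
  refine ⟨conv D, le_rfl, ?_, ?_⟩
  · intro j _
    by_cases h : j < D.gates.length
    · have hg : (conv D).gate j = gateOf (D.gates[j]) := by
        simp only [conv, h, dif_pos]
      rw [hg]
      cases D.gates[j] with
      | and a b => exact le_rfl
      | or a b => exact le_rfl
      | other a b => exact Nat.zero_le _
    · have hg : (conv D).gate j = outGate D.out := by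
        simp only [conv, h, dif_neg, not_false_eq_true]
      rw [hg]
      change 1 ≤ 2
      omega
  · intro x
    have h1 : (conv D).eval (fun a => if x a = true then (1 : ℝ) else 0) =
        (conv D).val (fun a => if x a = true then (1 : ℝ) else 0) D.gates.length := by
      unfold FCircuit.eval
      change (if D.gates.length < D.gates.length + 1 then _ else _) = _
      rw [if_pos (Nat.lt_succ_self _)]
    rw [h1, FCircuit.val]
    have hg : (conv D).gate D.gates.length = outGate D.out := by
      simp only [conv, lt_irrefl, dif_neg, not_false_eq_true]
    rw [hg]
    apply src_val x (runGates x D.gates)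
    intro i
    by_cases hi : i < D.gates.length
    · rw [dif_pos hi, conv_val D hD x i hi]
    · rw [dif_neg hi, List.getD_eq_default]
      · simp
      · rw [length_runGates]
        omega

end Pool.Agent.T9h81.SK
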