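import Pool.Agent.T9h36.SK.Spec

/-!
# Piece (D4): blocks with sets of sum zero give no cover
-/

set_option autoImplicit false

namespace Pool.Agent.T9h81.SK

open Finset
open Pool.Agent.T9h36.SK
open Pool.Agent.T9h20.SC

lemma glue_eq {k s m : ℕ} (e : Fin (k * (s + m)) ≃ Fin (k * s) ⊕ Fin (k * m))
    (A : Finset (Fin (k * s))) (B : Finset (Fin (k * m))) :
    glue e A B = (A.disjSum B).map e.symm.toEmbedding := by
  ext i
  unfold glue
  simp only [mem_filter, mem_univ, true_and, mem_map, mem_disjSum, Equiv.coe_toEmbedding]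
  constructor
  · rintro (⟨a, ha, h⟩ | ⟨b, hb, h⟩)
    · exact ⟨.inl a, Or.inl ⟨a, ha, rfl⟩, by rw [← h, Equiv.symm_apply_apply]⟩
    · exact ⟨.inr b, Or.inr ⟨b, hb, rfl⟩, by rw [← h, Equiv.symm_apply_apply]⟩
  · rintro ⟨x, hx, rfl⟩
    rw [Equiv.apply_symm_apply]
    rcases hx with ⟨a, ha, rfl⟩ | ⟨b, hb, rfl⟩
    · exact Or.inl ⟨a, ha, rfl⟩
    · exact Or.inr ⟨b, hb, rfl⟩

lemma card_glue {k s m : ℕ} (e : Fin (k * (s + m)) ≃ Fin (k * s) ⊕ Fin (k * m))
    (A : Finset (Fin (k * s))) (B : Finset (Fin (k * m))) :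
    (glue e A B).card = A.card + B.card := by
  rw [glue_eq, card_map, card_disjSum]

lemma inl_mem_glue {k s m : ℕ} (e : Fin (k * (s + m)) ≃ Fin (k * s) ⊕ Fin (k * m))
    (A : Finset (Fin (k * s))) (B : Finset (Fin (k * m))) (a : Fin (k * s)) :
    e.symm (.inl a) ∈ glue e A B ↔ a ∈ A := by
  unfold glue
  simp

lemma inr_mem_glue {k s m : ℕ} (e : Fin (k * (s + m)) ≃ Fin (k * s) ⊕ Fin (k * m))
    (A : Finset (Fin (k * s))) (B : Finset (Fin (k * m))) (b : Fin (k * m)) :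
    e.symm (.inr b) ∈ glue e A B ↔ b ∈ B := by
  unfold glue
  simp

/-- a cover by at most `k` sets with `t` elements of a set with `k * t` elements consists of `k`
disjoint sets -/
lemma cover_disj {α : Type} [Fintype α] [DecidableEq α] (k t : ℕ) (ht : 1 ≤ t)
    (hα : Fintype.card α = k * t) (𝒢 : Finset (Finset α)) (h1 : ∀ B ∈ 𝒢, B.card = t)
    (h2 : 𝒢.card ≤ k) (h3 : ∀ i, ∃ B ∈ 𝒢, i ∈ B) :
    𝒢.card = k ∧ ∀ B ∈ 𝒢, ∀ B' ∈ 𝒢, B ≠ B' → Disjoint B B' := by
  have hU : 𝒢.biUnion id = univ := by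
    ext i
    simp only [mem_biUnion, id, mem_univ, iff_true]
    exact h3 i
  have hle : k * t ≤ 𝒢.card * t := by
    have h := card_biUnion_le_card_mul 𝒢 id t (fun B hB => (h1 B hB).le)
    rw [hU, card_univ, hα] at h
    exact h
  have hk : 𝒢.card = k := le_antisymm h2 (Nat.le_of_mul_le_mul_right hle ht)
  refine ⟨hk, fun B hB B' hB' hne => ?_⟩
  have h4 : B ∪ (𝒢.erase B).biUnion id = univ := by
    rw [← hU]
    ext i
    simp only [mem_union, mem_biUnion, mem_erase, id]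
    constructor
    · rintro (h | ⟨C, ⟨_, hC⟩, h⟩)
      · exact ⟨B, hB, h⟩
      · exact ⟨C, hC, h⟩
    · rintro ⟨C, hC, h⟩
      by_cases hCB : C = B
      · exact Or.inl (hCB ▸ h)
      · exact Or.inr ⟨C, ⟨hCB, hC⟩, h⟩
  have h5 : ((𝒢.erase B).biUnion id).card ≤ (𝒢.erase B).card * t :=
    card_biUnion_le_card_mul _ id t (fun C hC => (h1 C (mem_of_mem_erase hC)).le)
  have h6 := card_union_add_card_inter B ((𝒢.erase B).biUnion id)
  rw [h4, card_univ, hα, h1 B hB] at h6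
  rw [card_erase_of_mem hB, hk] at h5
  have h7 : 1 ≤ k := hk ▸ card_pos.2 ⟨B, hB⟩
  obtain ⟨q, rfl⟩ : ∃ q, k = q + 1 := ⟨k - 1, by omega⟩
  have h8 : (q + 1) * t = q * t + t := by ring
  rw [h8] at h6
  rw [Nat.add_sub_cancel] at h5
  have h9 : (B ∩ (𝒢.erase B).biUnion id).card = 0 := by omega
  rw [card_eq_zero] at h9
  rw [Finset.disjoint_iff_inter_eq_empty]
  apply eq_empty_of_forall_notMem
  intro i hi
  rw [mem_inter] at hi
  have : i ∈ B ∩ (𝒢.erase B).biUnion id :=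
    mem_inter.2 ⟨hi.1, mem_biUnion.2 ⟨B', mem_erase.2 ⟨Ne.symm hne, hB'⟩, hi.2⟩⟩
  rw [h9] at this
  exact absurd this (notMem_empty i)

theorem sNo : S_No := by
  classical
  intro k s m M p _ e P y hs hk hy
  rintro ⟨𝒢, h𝒢, hcard, hcov⟩
  choose w hw using hy
  have hd : ∀ B ∈ 𝒢, ∃ (j : Fin M) (r : Fin k) (A : Finset (Fin (k * s))),
      (r, A) ∈ y j ∧ B = glue e A (P.S j r) := by
    intro B hB
    have h := h𝒢 hB
    unfold fam at h
    exact (mem_filter.1 h).2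
  have hsz : ∀ B ∈ 𝒢, B.card = s + m := by
    intro B hB
    obtain ⟨j, r, A, hA, rfl⟩ := hd B hB
    rw [card_glue, P.card, (hw j hA).1]
  obtain ⟨hgc, hdisj⟩ := cover_disj k (s + m) (by omega) (by simp) 𝒢 hsz hcard hcov
  let E : Fin k ≃ 𝒢 := (Fintype.equivFinOfCardEq (by simp [hgc])).symm
  choose J R A hA hB using fun a : Fin k => hd (E a).1 (E a).2
  have hEne : ∀ a b, a ≠ b → (E a).1 ≠ (E b).1 := fun a b hab h =>
    hab (E.injective (Subtype.ext h))
  have hD : ∀ a b, a ≠ b → Disjoint (glue e (A a) (P.S (J a) (R a)))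
      (glue e (A b) (P.S (J b) (R b))) := by
    intro a b hab
    rw [← hB a, ← hB b]
    exact hdisj _ (E a).2 _ (E b).2 (hEne a b hab)
  have hDS : ∀ a b, a ≠ b → Disjoint (P.S (J a) (R a)) (P.S (J b) (R b)) := by
    intro a b hab
    rw [Finset.disjoint_left]
    intro i hi hi'
    exact Finset.disjoint_left.1 (hD a b hab) ((inr_mem_glue e _ _ i).2 hi)
      ((inr_mem_glue e _ _ i).2 hi')
  have hDA : ∀ a b, a ≠ b → Disjoint (A a) (A b) := by
    intro a b hab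
    rw [Finset.disjoint_left]
    intro i hi hi'
    exact Finset.disjoint_left.1 (hD a b hab) ((inl_mem_glue e _ _ i).2 hi)
      ((inl_mem_glue e _ _ i).2 hi')
  have hJ : ∀ a b, J a = J b := fun a b => (P.rigid J R hDS a b).1
  let a0 : Fin k := ⟨0, by omega⟩
  have hU : (univ : Finset (Fin k)).biUnion A = univ := by
    ext i
    simp only [mem_biUnion, mem_univ, true_and, iff_true]
    obtain ⟨B, hB1, hB2⟩ := hcov (e.symm (.inl i))
    refine ⟨E.symm ⟨B, hB1⟩, ?_⟩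
    have h := hB (E.symm ⟨B, hB1⟩)
    rw [Equiv.apply_symm_apply] at h
    change B = _ at h
    rw [h] at hB2
    exact (inl_mem_glue e _ _ i).1 hB2
  have hsum : ∀ f : Fin (k * s) → ZMod p, (∀ a, ∑ i ∈ A a, f i = 0) → ∑ i, f i = 0 := by
    intro f hf
    rw [← hU, sum_biUnion (fun a _ b _ hab => hDA a b hab)]
    exact sum_eq_zero (fun a _ => hf a)
  have h0 : ∑ i, (w (J a0)).1 i = 0 := hsum _ (fun a => by
    have h := (hw (J a) (hA a)).2
    rw [hJ a a0] at h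
    exact h)
  rw [(w (J a0)).2] at h0
  exact one_ne_zero h0

end Pool.Agent.T9h81.SK
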